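import Pool.Agent.Helper4.QH.LemN
import Pool.Graph.R_seed8.H952R2.Sextic.CommonZero

/-!
# Consequences of the Nullstellensatz; factors of forms; primality
-/

set_option autoImplicit false

namespace Pool.Agent.Helper4.QH

open MvPolynomial

universe u v w

section dvd

variable {k : Type u} [Field k] {m : ℕ}

/-- the homogeneous components as the coefficients of a polynomial -/
noncomputable def th : MvPolynomial (Fin m) k →ₐ[k] Polynomial (MvPolynomial (Fin m) k) :=
  aeval (fun i => Polynomial.X * Polynomial.C (X i))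

theorem th_hom {f : MvPolynomial (Fin m) k} {d : ℕ} (hf : f.IsHomogeneous d) :
    th f = Polynomial.monomial d f := by
  rw [th, aeval_hom_smul hf]
  have h1 : aeval (fun i => Polynomial.C (X i : MvPolynomial (Fin m) k)) f = Polynomial.C f := by
    have h2 := aeval_algebraMap_apply (R := k) (Polynomial (MvPolynomial (Fin m) k))
      (X : Fin m → MvPolynomial (Fin m) k) f
    rw [aeval_X_left] at h2
    exact h2
  rw [h1, mul_comm, Polynomial.C_mul_X_pow_eq_monomial]

theorem th_eq (f : MvPolynomial (Fin m) k) (d : ℕ) : (th f).coeff d = homogeneousComponent d f := by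
  classical
  conv_lhs => rw [← sum_homogeneousComponent f]
  rw [map_sum, Polynomial.finsetSum_coeff]
  simp only [fun j => th_hom (homogeneousComponent_isHomogeneous j f), Polynomial.coeff_monomial]
  rw [Finset.sum_ite_eq' _ _ _]
  split_ifs with h
  · rfl
  · rw [homogeneousComponent_eq_zero]
    rw [Finset.mem_range] at h
    omega

theorem th_inj {f : MvPolynomial (Fin m) k} (hf : f ≠ 0) : th f ≠ 0 := by
  intro h
  apply hf
  rw [← sum_homogeneousComponent f]
  exact Finset.sum_eq_zero fun d _ => by rw [← th_eq, h, Polynomial.coeff_zero]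

theorem hom_of_dvd {f g : MvPolynomial (Fin m) k} {d : ℕ} (hf : f.IsHomogeneous d) (hf0 : f ≠ 0)
    (hg : g ∣ f) : ∃ e, g.IsHomogeneous e := by
  obtain ⟨h, rfl⟩ := hg
  have hg0 : g ≠ 0 := left_ne_zero_of_mul hf0
  have hh0 : h ≠ 0 := right_ne_zero_of_mul hf0
  have h1 := th_hom hf
  rw [map_mul] at h1
  have h2 := congrArg Polynomial.natDegree h1
  have h3 := congrArg Polynomial.natTrailingDegree h1
  rw [Polynomial.natDegree_mul (th_inj hg0) (th_inj hh0), Polynomial.natDegree_monomial_eq _ hf0] at h2
  rw [Polynomial.natTrailingDegree_mul (th_inj hg0) (th_inj hh0),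
    Polynomial.natTrailingDegree_monomial hf0] at h3
  have h4 := Polynomial.natTrailingDegree_le_natDegree (th g)
  have h5 := Polynomial.natTrailingDegree_le_natDegree (th h)
  refine ⟨(th g).natDegree, ?_⟩
  have h6 : g = homogeneousComponent (th g).natDegree g := by
    conv_lhs => rw [← sum_homogeneousComponent g]
    refine Finset.sum_eq_single _ ?_ ?_
    · intro j _ hj
      rw [← th_eq]
      rcases lt_or_gt_of_ne hj with h7 | h7
      · exact Polynomial.coeff_eq_zero_of_lt_natTrailingDegree (by omega)
      · exact Polynomial.coeff_eq_zero_of_natDegree_lt h7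
    · intro hj
      rw [Finset.mem_range] at hj
      exact homogeneousComponent_eq_zero _ _ (by omega)
  have h7 : (homogeneousComponent (th g).natDegree g).IsHomogeneous (th g).natDegree :=
    homogeneousComponent_isHomogeneous _ _
  rwa [← h6] at h7

end dvd

section

variable {k : Type u} [Field k] {N : ℕ}

/-- nonsingular quartic forms (over an algebraically closed field) -/
def Sm (a : Ten k N) : Prop := ∀ x : Fin N → k, (∀ y, T a x x x y = 0) → x = 0

/-- the partial derivatives, up to a factor -/
noncomputable def gr (a : Ten k N) (i : Fin N) : MvPolynomial (Fin N) k :=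
  T a (X : Fin N → MvPolynomial (Fin N) k) X X (Pi.single i 1)

variable {a : Ten k N}

theorem aeval_single {M : Type v} [CommRing M] [Algebra k M] (x : Fin N → M) (i : Fin N) :
    (fun j => aeval x ((Pi.single i 1 : Fin N → MvPolynomial (Fin N) k) j)) = (Pi.single i 1 : Fin N → M) := by
  funext j
  by_cases hij : j = i
  · subst hij
    simp
  · simp [Pi.single_eq_of_ne hij]

theorem aeval_gr {M : Type v} [CommRing M] [Algebra k M] (x : Fin N → M) (i : Fin N) :
    aeval x (gr a i) = T a x x x (Pi.single i 1) := by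
  rw [gr, T_map, aeval_single]
  simp only [aeval_X]

theorem T_hom_aux {K : Type v} [Field K] [Algebra k K] {m : ℕ} {x y z t : Fin N → MvPolynomial (Fin m) K} {p q r s : ℕ}
    (hx : ∀ i, (x i).IsHomogeneous p) (hy : ∀ i, (y i).IsHomogeneous q) (hz : ∀ i, (z i).IsHomogeneous r)
    (ht : ∀ i, (t i).IsHomogeneous s) : (T a x y z t).IsHomogeneous (p + q + r + s) := by
  refine IsHomogeneous.sum _ _ _ fun i _ => IsHomogeneous.sum _ _ _ fun j _ =>
    IsHomogeneous.sum _ _ _ fun l _ => IsHomogeneous.sum _ _ _ fun m' _ => ?_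
  have h := (((hx i).mul (hy j)).mul (hz l)).mul (ht m')
  have h2 := (isHomogeneous_C (Fin m) (algebraMap k K (a i j l m'))).mul h
  rw [zero_add] at h2
  exact h2

theorem single_hom {K : Type v} [Field K] {m : ℕ} (i : Fin N) (j : Fin N) :
    ((Pi.single i 1 : Fin N → MvPolynomial (Fin m) K) j).IsHomogeneous 0 := by
  by_cases hij : j = i
  · subst hij
    rw [Pi.single_eq_same]
    exact isHomogeneous_one _ _
  · rw [Pi.single_eq_of_ne hij]
    exact isHomogeneous_zero _ _ _

theorem gr_hom (i : Fin N) : (gr a i).IsHomogeneous 3 :=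
  T_hom_aux (k := k) (K := k) (fun i => isHomogeneous_X k i) (fun i => isHomogeneous_X k i) (fun i => isHomogeneous_X k i)
    (fun j => single_hom i j)

variable [IsAlgClosed k]

theorem Sm.rad (h : Sm a) (j : Fin N) : X j ∈ (Ideal.span (Set.range (gr a))).radical := by
  rw [← vanishingIdeal_zeroLocus_eq_radical (K := k), mem_vanishingIdeal_iff]
  intro x hx
  rw [mem_zeroLocus_iff] at hx
  have h1 : x = 0 := by
    refine h x fun y => ?_
    rw [T_basis4]
    refine Finset.sum_eq_zero fun i _ => ?_
    rw [← aeval_gr, hx _ (Ideal.subset_span ⟨i, rfl⟩), zero_mul]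
  rw [h1, aeval_X]
  rfl

theorem Sm.smoothX (h : Sm a) : SmoothX a := by
  intro M _ _ x hx
  funext j
  obtain ⟨e, he⟩ := h.rad j
  have h2 : Ideal.span (Set.range (gr a)) ≤ RingHom.ker (aeval x : MvPolynomial (Fin N) k →ₐ[k] M) := by
    rw [Ideal.span_le]
    rintro _ ⟨i, rfl⟩
    change aeval x (gr a i) = 0
    rw [aeval_gr]
    exact hx _
  have h3 := h2 he
  rw [RingHom.mem_ker, map_pow, aeval_X] at h3
  exact eq_zero_of_pow_eq_zero h3

/-- nonsingular forms are irreducible -/
theorem Sm.irreducible [CharZero k] (ha : IsSym a) (h : Sm a) (hN : 3 ≤ N) : Irreducible (form a) := by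
  have hne : form a ≠ 0 := by
    intro h0
    have h1 : (Pi.single ⟨0, by omega⟩ 1 : Fin N → k) = 0 := by
      refine h _ fun y => ?_
      rw [T_basis4]
      refine Finset.sum_eq_zero fun i _ => ?_
      have h2 := pderiv_form ha (Pi.single ⟨0, by omega⟩ 1 : Fin N → k) i
      rw [h0, map_zero, map_zero] at h2
      have h3 := (mul_eq_zero.1 h2.symm).resolve_left (by norm_num)
      rw [h3, zero_mul]
    have h4 := congrFun h1 ⟨0, by omega⟩
    simp at h4
  have hunit : ∀ g : MvPolynomial (Fin N) k, g.IsHomogeneous 0 → g ≠ 0 → IsUnit g := by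
    intro g hg hg0
    have h1 := totalDegree_eq_zero_iff_eq_C.1 (Nat.le_zero.1 hg.totalDegree_le)
    rw [h1]
    refine IsUnit.map C (isUnit_iff_ne_zero.2 ?_)
    intro h2
    apply hg0
    rw [h1, h2, map_zero]
  refine ⟨?_, ?_⟩
  · intro hu
    have h1 := (form_hom a).totalDegree hne
    obtain ⟨g, hg⟩ := hu.exists_right_inv
    have hg0 : g ≠ 0 := by
      rintro rfl
      rw [mul_zero] at hg
      exact zero_ne_one hg
    have h2 := congrArg totalDegree hg
    rw [totalDegree_mul_of_isDomain hne hg0, h1, totalDegree_one] at h2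
    omega
  · intro A B hAB
    have hA0 : A ≠ 0 := by rintro rfl; exact hne (by rw [hAB, zero_mul])
    have hB0 : B ≠ 0 := by rintro rfl; exact hne (by rw [hAB, mul_zero])
    obtain ⟨p, hp⟩ := hom_of_dvd (form_hom a) hne ⟨B, hAB⟩
    obtain ⟨q, hq⟩ := hom_of_dvd (form_hom a) hne ⟨A, by rw [hAB, mul_comm]⟩
    rcases Nat.eq_zero_or_pos p with rfl | hp0
    · exact Or.inl (hunit A hp hA0)
    rcases Nat.eq_zero_or_pos q with rfl | hq0
    · exact Or.inr (hunit B hq hB0)
    exfalso
    have hz : ∀ (g : MvPolynomial (Fin N) k) (e : ℕ), g.IsHomogeneous e → 0 < e → eval 0 g = 0 := by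
      intro g e hg he
      have h1 : constantCoeff g = 0 := by
        rw [constantCoeff_eq]
        exact hg.coeff_eq_zero (by simp; omega)
      rw [← h1]
      exact congrArg (fun f : MvPolynomial (Fin N) k →+* k => f g) eval_zero
    obtain ⟨x, hx0, hx⟩ := Pool.Agent.H952R2.Sextic.exists_common_zero (K := k) (ι := Fin N) (κ := Fin 2)
      (by rw [Fintype.card_fin, Fintype.card_fin]; omega) ![A, B] (by
        intro j
        fin_cases j
        · exact hz A p hp hp0
        · exact hz B q hq hq0)
    apply hx0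
    refine h x fun y => ?_
    rw [T_basis4]
    refine Finset.sum_eq_zero fun i _ => ?_
    have h2 := pderiv_form ha x i
    have hA : aeval x A = 0 := hx 0
    have hB : aeval x B = 0 := hx 1
    rw [hAB, Derivation.leibniz, map_add, smul_eq_mul, smul_eq_mul, map_mul, map_mul, hA, hB] at h2
    have h3 : (4 : k) * T a x x x (Pi.single i 1) = 0 := by rw [← h2]; ring
    rw [(mul_eq_zero.1 h3).resolve_left (by norm_num), zero_mul]

end

end Pool.Agent.Helper4.QH
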