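import Pool.Graph.R_seed8.R867.J.Der

/-!
# Transcendence degrees of images of polynomial rings and derivations
-/

set_option autoImplicit false

namespace Pool.Agent.Helper4.QH

open MvPolynomial

universe u v w

section

variable {k : Type u} [Field k] {m : ℕ}

/-- the image of `φ` has transcendence degree at most `r` -/
def TD {A : Type v} [CommRing A] [Algebra k A] (φ : MvPolynomial (Fin m) k →ₐ[k] A) (r : ℕ) : Prop :=
  ∀ g : Fin (r + 1) → MvPolynomial (Fin m) k, ¬ AlgebraicIndependent k (fun i => φ (g i))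

theorem TD.mono {A : Type v} [CommRing A] [Algebra k A] {φ : MvPolynomial (Fin m) k →ₐ[k] A} {r s : ℕ}
    (h : TD φ r) (hrs : r ≤ s) : TD φ s := by
  intro g hg
  exact h (g ∘ Fin.castLE (by omega)) (hg.comp _ (Fin.castLE_injective _))

/-- The transcendence degree drops. -/
theorem TD_drop {A₁ : Type v} {A₂ : Type w} [CommRing A₁] [IsDomain A₁] [CommRing A₂] [Algebra k A₁]
    [Algebra k A₂] {φ₁ : MvPolynomial (Fin m) k →ₐ[k] A₁} {φ₂ : MvPolynomial (Fin m) k →ₐ[k] A₂} {r : ℕ}
    (h1 : TD φ₁ (r + 1)) (hle : ∀ f, φ₁ f = 0 → φ₂ f = 0) (f₀ : MvPolynomial (Fin m) k)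
    (hf₀ : φ₂ f₀ = 0) (hf₀' : φ₁ f₀ ≠ 0) : TD φ₂ r := by
  intro g hg
  have hg1 : AlgebraicIndependent k (fun i => φ₁ (g i)) := by
    rw [algebraicIndependent_iff] at hg ⊢
    intro p hp
    apply hg p
    have h2 : ∀ {A : Type v} [CommRing A] [Algebra k A] (φ : MvPolynomial (Fin m) k →ₐ[k] A),
        aeval (fun i => φ (g i)) p = φ (aeval g p) := by
      intro A _ _ φ
      exact (congrFun (congrArg DFunLike.coe (comp_aeval g φ)) p).symm
    have h3 : aeval (fun i => φ₂ (g i)) p = φ₂ (aeval g p) :=
      (congrFun (congrArg DFunLike.coe (comp_aeval g φ₂)) p).symm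
    rw [h2 φ₁] at hp
    rw [h3]
    exact hle _ hp
  -- in the image of `φ₁`
  let ψ : MvPolynomial (Fin m) k →ₐ[k] φ₁.range := φ₁.rangeRestrict
  have hψ : ∀ f, ((ψ f : φ₁.range) : A₁) = φ₁ f := fun f => rfl
  have hgψ : AlgebraicIndependent k (fun i => ψ (g i)) := by
    refine AlgebraicIndependent.of_comp (φ₁.range.val) ?_
    exact hg1
  have hne : ψ f₀ ≠ 0 := by
    intro h
    apply hf₀'
    rw [← hψ, h]
    rfl
  have halg : IsAlgebraic (Algebra.adjoin k (Set.range fun i => ψ (g i))) (ψ f₀) := by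
    by_contra hcon
    have h2 := (hgψ.option_iff_transcendental (ψ f₀)).2 hcon
    have h3 : AlgebraicIndependent k (fun o : Option (Fin (r + 1)) => φ₁ (o.elim f₀ g)) := by
      have h4 := h2.map' (f := φ₁.range.val) Subtype.val_injective
      have h5 : (⇑φ₁.range.val ∘ fun o : Option (Fin (r + 1)) => o.elim (ψ f₀) fun i => ψ (g i)) =
          fun o => φ₁ (o.elim f₀ g) := by
        funext o
        cases o with
        | none => rfl
        | some i => rfl
      rw [h5] at h4
      exact h4
    let e : Fin (r + 1 + 1) ≃ Option (Fin (r + 1)) := finSuccEquiv (r + 1)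
    refine h1 (fun i => (e i).elim f₀ g) ?_
    exact (h3.comp e e.injective)
  obtain ⟨s, hs, c, hc⟩ := halg.exists_nonzero_dvd (mem_nonZeroDivisors_of_ne_zero hne)
  obtain ⟨q, hq⟩ : ∃ q : MvPolynomial (Fin (r + 1)) k, aeval (fun i => ψ (g i)) q = (s : φ₁.range) := by
    obtain ⟨s', hs'⟩ := s
    rw [Algebra.adjoin_range_eq_range_aeval] at hs'
    exact hs'
  obtain ⟨c', hc'⟩ : ∃ c', ψ c' = c := φ₁.rangeRestrict_surjective c
  have hq0 : q ≠ 0 := by
    rintro rfl
    apply hs
    apply Subtype.ext
    rw [← hq, map_zero]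
    rfl
  have h5 : ψ (aeval g q - f₀ * c') = 0 := by
    rw [map_sub, map_mul, hc']
    have h6 : aeval (fun i => ψ (g i)) q = ψ (aeval g q) :=
      (congrFun (congrArg DFunLike.coe (comp_aeval g ψ)) q).symm
    rw [← h6, hq]
    exact sub_eq_zero.2 hc
  have h7 : φ₁ (aeval g q - f₀ * c') = 0 := by
    rw [← hψ, h5]
    rfl
  have h8 := hle _ h7
  rw [map_sub, map_mul, hf₀, zero_mul, sub_zero] at h8
  have h9 : aeval (fun i => φ₂ (g i)) q = φ₂ (aeval g q) :=
    (congrFun (congrArg DFunLike.coe (comp_aeval g φ₂)) q).symm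
  rw [← h9] at h8
  exact hq0 ((algebraicIndependent_iff.1 hg) q h8)

/-- the polynomial ring -/
theorem TD_poly {A : Type v} [CommRing A] [IsDomain A] [Algebra k A] {s : ℕ}
    (h : Algebra.trdeg k A ≤ s) (φ : MvPolynomial (Fin m) k →ₐ[k] A) : TD φ s := by
  intro g hg
  have h1 := hg.lift_cardinalMk_le_trdeg
  have h2 := h1.trans (Cardinal.lift_le.2 h)
  rw [Cardinal.mk_fin, Cardinal.lift_natCast, Cardinal.lift_natCast] at h2
  have h3 : s + 1 ≤ s := by exact_mod_cast h2
  omega

end

section

variable {k : Type u} [Field k] {m : ℕ} {M : Type v} [Field M] [Algebra k M] [CharZero M]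

open Pool.Agent.R867.Mov Pool.Agent.R867.J

theorem TD_der (y : Fin m → M) {r : ℕ} (h : TD (aeval y : MvPolynomial (Fin m) k →ₐ[k] M) r) :
    ∃ Z : Submodule M (Fin m → M), Module.finrank M Z ≤ r ∧
      ∀ D : Derivation k M M, (fun i => D (y i)) ∈ Z := by
  classical
  obtain ⟨I, hI⟩ := (AlgebraicIndependent.matroid k M).exists_isBasis (Set.range y)
  have hIind : AlgebraicIndepOn k id I := hI.indep
  have hIsub : I ⊆ Set.range y := hI.subset
  have hIcl : Set.range y ⊆ cl k I := by
    rw [← cl_eq]
    exact hI.subset_closure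
  have hfin : I.Finite := (Set.finite_range y).subset hIsub
  have hcard : hfin.toFinset.card ≤ r := by
    by_contra hcon
    push Not at hcon
    -- choose `r + 1` elements
    have hemb : Nonempty (Fin (r + 1) ↪ I) := by
      have : Fintype I := hfin.fintype
      refine Function.Embedding.nonempty_of_card_le ?_
      rw [Fintype.card_fin]
      have h2 : Fintype.card I = hfin.toFinset.card := by
        rw [← Set.toFinset_card]
        congr 1
        ext z
        simp
      rw [h2]
      exact hcon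
    obtain ⟨e⟩ := hemb
    have hpre : ∀ z : I, ∃ i, y i = z := fun z => hIsub z.2
    choose p hp using hpre
    refine h (fun i => X (p (e i))) ?_
    have h3 : (fun i => aeval y (X (p (e i)) : MvPolynomial (Fin m) k)) = fun i => ((e i : I) : M) := by
      funext i
      rw [aeval_X, hp]
    rw [h3]
    exact hIind.comp e e.injective
  let evB : Derivation k M M →ₗ[M] (hfin.toFinset → M) :=
    { toFun := fun D b => D b
      map_add' := fun D E => rfl
      map_smul' := fun c D => rfl }
  let evy : Derivation k M M →ₗ[M] (Fin m → M) :=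
    { toFun := fun D i => D (y i)
      map_add' := fun D E => rfl
      map_smul' := fun c D => rfl }
  have hker : LinearMap.ker evB ≤ LinearMap.ker evy := by
    intro D hD
    rw [LinearMap.mem_ker] at hD ⊢
    funext i
    refine der_cl D (S := I) ?_ (hIcl ⟨i, rfl⟩)
    intro z hz
    exact congrFun hD ⟨z, hfin.mem_toFinset.2 hz⟩
  refine ⟨LinearMap.range evy, ?_, fun D => ⟨D, rfl⟩⟩
  -- `range evy` is the image of the range of `evB`
  obtain ⟨θ, hθ⟩ : ∃ θ : (hfin.toFinset → M) →ₗ[M] (Fin m → M), evy = θ.comp evB := by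
    obtain ⟨s, hs⟩ := (evB.rangeRestrict).exists_rightInverse_of_surjective
      (LinearMap.range_rangeRestrict evB)
    obtain ⟨θ, hθ⟩ := (evy.comp s).exists_extend
    refine ⟨θ, ?_⟩
    ext1 D
    have h1 : θ (evB D) = (evy.comp s) (evB.rangeRestrict D) := by
      rw [← hθ]
      rfl
    rw [LinearMap.comp_apply, h1, LinearMap.comp_apply]
    have h2 : evB (s (evB.rangeRestrict D)) = evB D := by
      have h3 := congrArg Subtype.val (LinearMap.congr_fun hs (evB.rangeRestrict D))
      exact h3
    have h4 : D - s (evB.rangeRestrict D) ∈ LinearMap.ker evB := by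
      rw [LinearMap.mem_ker, map_sub, h2, sub_self]
    have h5 := hker h4
    rw [LinearMap.mem_ker, map_sub, sub_eq_zero] at h5
    exact h5
  have hle : LinearMap.range evy ≤ LinearMap.range θ := by
    rw [hθ]
    exact LinearMap.range_comp_le_range _ _
  calc Module.finrank M (LinearMap.range evy) ≤ Module.finrank M (LinearMap.range θ) :=
        Submodule.finrank_mono hle
    _ ≤ Module.finrank M (hfin.toFinset → M) := LinearMap.finrank_range_le θ
    _ = hfin.toFinset.card := by rw [Module.finrank_fintype_fun_eq_card, Fintype.card_coe]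
    _ ≤ r := hcard

end

end Pool.Agent.Helper4.QH
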