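import Pool.Agent.Helper4.QH.Der

/-!
# Generic points, sections, cones
-/

set_option autoImplicit false

namespace Pool.Agent.Helper4.QH

open MvPolynomial

universe u v w

section

variable {k : Type u} [Field k] {N : ℕ} {a : Ten k N}

/-- generic points of the cone `form a = 0` -/
def Gen (a : Ten k N) {M : Type v} [CommRing M] [Algebra k M] (R : Fin N → M) : Prop :=
  ∀ G : MvPolynomial (Fin N) k, aeval R G = 0 ↔ form a ∣ G

theorem Gen.zero {M : Type v} [CommRing M] [Algebra k M] {R : Fin N → M} (h : Gen a R) :
    T a R R R R = 0 := by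
  rw [← aeval_form]
  exact (h _).2 dvd_rfl

theorem exists_basis4 {M : Type v} [CommRing M] [Algebra k M] {x y z t : Fin N → M} (h : T a x y z t ≠ 0) :
    ∃ i, T a x y z (Pi.single i 1) ≠ 0 := by
  by_contra hcon
  push Not at hcon
  apply h
  rw [T_basis4]
  exact Finset.sum_eq_zero fun i _ => by rw [hcon i, zero_mul]

variable {M : Type v} [Field M] [Algebra k M]

theorem Gen.algInd [CharZero M] (ha : IsSym a) {R : Fin N → M} (hR : Gen a R) {j : Fin N}
    (hj : T a R R R (Pi.single j 1) ≠ 0) :
    AlgebraicIndependent k (fun i : {i // i ≠ j} => R i) := by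
  classical
  have hd : pderiv j (form a) ≠ 0 := by
    intro h0
    have h1 := pderiv_form ha R j
    rw [h0, map_zero] at h1
    have h4 : (4 : M) ≠ 0 := by norm_num
    exact (mul_ne_zero h4 hj) h1.symm
  rw [algebraicIndependent_iff]
  intro p hp
  by_contra hp0
  have h1 : aeval R (rename (Subtype.val : {i // i ≠ j} → Fin N) p) = 0 := by
    rw [aeval_rename]
    exact hp
  obtain ⟨q, hq⟩ := (hR _).1 h1
  have h2 : rename (Subtype.val : {i // i ≠ j} → Fin N) p ≠ 0 := by
    intro h
    exact hp0 (rename_injective _ Subtype.val_injective (by rw [h, map_zero]))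
  have hf0 : form a ≠ 0 := by
    intro h
    apply h2
    rw [hq, h, zero_mul]
  have hq0 : q ≠ 0 := by
    intro h
    apply h2
    rw [hq, h, mul_zero]
  have h3 : j ∉ (rename (Subtype.val : {i // i ≠ j} → Fin N) p).vars := by
    intro h
    have := vars_rename (Subtype.val : {i // i ≠ j} → Fin N) p h
    rw [Finset.mem_image] at this
    obtain ⟨i, -, hi⟩ := this
    exact i.2 hi
  have h4 : degreeOf j (rename (Subtype.val : {i // i ≠ j} → Fin N) p) = 0 := by
    by_contra h
    exact h3 (mem_vars_iff_degreeOf_ne_zero.2 h)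
  rw [hq, degreeOf_mul_eq hf0 hq0] at h4
  have h5 : j ∉ (form a).vars := by
    intro h
    rw [mem_vars_iff_degreeOf_ne_zero] at h
    omega
  exact hd (pderiv_eq_zero_of_notMem_vars h5)

/-- derivations moving the generic point in every tangent direction, in a linear way -/
theorem exists_sec [CharZero k] [CharZero M] (ha : IsSym a) {R : Fin N → M} (hR : Gen a R)
    (hne : ∃ y, T a R R R y ≠ 0) :
    ∃ σ : (Fin N → M) →ₗ[M] Derivation k M M, ∀ w, T a R R R w = 0 → ∀ i, σ w (R i) = w i := by
  classical
  obtain ⟨y, hy⟩ := hne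
  obtain ⟨j, hj⟩ := exists_basis4 hy
  have hI := hR.algInd ha hj
  have hex : ∀ i : {i // i ≠ j}, ∃ D : Derivation k M M, ∀ l : {i // i ≠ j},
      D (R l) = if l = i then 1 else 0 := by
    intro i
    exact Pool.Agent.H135R2.VS.exists_der hI (fun l => if l = i then 1 else 0)
  choose Dd hDd using hex
  let σ : (Fin N → M) →ₗ[M] Derivation k M M :=
    { toFun := fun w => ∑ i : {i // i ≠ j}, w i • Dd i
      map_add' := fun w w' => by
        simp only [Pi.add_apply, add_smul, Finset.sum_add_distrib]
      map_smul' := fun c w => by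
        simp only [Pi.smul_apply, smul_eq_mul, mul_smul, Finset.smul_sum, RingHom.id_apply] }
  have hσ : ∀ (w : Fin N → M) (x : M), σ w x = ∑ i : {i // i ≠ j}, w i * Dd i x := by
    intro w x
    change (∑ i : {i // i ≠ j}, w i • Dd i : Derivation k M M) x = _
    rw [← Derivation.coeFnAddMonoidHom_apply, map_sum, Finset.sum_apply]
    rfl
  have hne : ∀ (w : Fin N → M) (l : {i // i ≠ j}), σ w (R l) = w l := by
    intro w l
    rw [hσ]
    rw [Finset.sum_eq_single l]
    · rw [hDd, if_pos rfl, mul_one]
    · intro i _ hil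
      rw [hDd, if_neg (Ne.symm hil), mul_zero]
    · intro h
      exact absurd (Finset.mem_univ _) h
  refine ⟨σ, fun w hw i => ?_⟩
  by_cases hij : i = j
  · subst hij
    have h1 : T a R R R (fun l => σ w (R l)) = 0 := by
      have h2 := congrArg (σ w) hR.zero
      rw [T_D, map_zero] at h2
      have e1 : T a (fun l => σ w (R l)) R R R = T a R R R (fun l => σ w (R l)) := (T_rot ha R R R _).symm
      have e2 : T a R (fun l => σ w (R l)) R R = T a R R R (fun l => σ w (R l)) := by
        rw [T_s12 ha, T_s23 ha]
      have e3 : T a R R (fun l => σ w (R l)) R = T a R R R (fun l => σ w (R l)) := T_s23 ha _ _ _ _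
      rw [e1, e2, e3] at h2
      have h4 : (4 : M) ≠ 0 := by norm_num
      have h5 : 4 * T a R R R (fun l => σ w (R l)) = 0 := by linear_combination h2
      exact (mul_eq_zero.1 h5).resolve_left h4
    have h3 : T a R R R ((fun l => σ w (R l)) - w) = 0 := by
      rw [T_sub4, h1, hw, sub_zero]
    have h6 : (fun l => σ w (R l)) - w = (σ w (R i) - w i) • (Pi.single i 1 : Fin N → M) := by
      funext l
      by_cases hl : l = i
      · subst hl
        simp
      · simp only [Pi.sub_apply, Pi.smul_apply, Pi.single_eq_of_ne hl, smul_eq_mul, mul_zero]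
        rw [hne w ⟨l, hl⟩, sub_self]
    rw [h6, T_smul4] at h3
    exact sub_eq_zero.1 ((mul_eq_zero.1 h3).resolve_right hj)
  · exact hne w ⟨i, hij⟩

end

section

variable {k : Type u} [Field k] [CharZero k] [IsAlgClosed k] {M : Type v} [Field M] [Algebra k M]

/-- constants of all derivations -/
theorem const_of_der (f : M) (h : ∀ D : Derivation k M M, D f = 0) : ∃ c : k, algebraMap k M c = f := by
  by_cases hf : IsAlgebraic k f
  · have h1 := hf.isIntegral
    have h2 := IsAlgClosed.degree_eq_one_of_irreducible k (minpoly.irreducible h1)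
    exact minpoly.degree_eq_one_iff.1 h2
  · exfalso
    have h1 : AlgebraicIndependent k (fun _ : Unit => f) := algebraicIndependent_unique_type_iff.2 hf
    obtain ⟨D, hD⟩ := Pool.Agent.H135R2.VS.exists_der h1 (fun _ => 1)
    have h2 := hD ()
    rw [h D] at h2
    exact zero_ne_one h2

end

section cone

variable {k : Type u} [Field k] {m : ℕ} {M₀ : Type v} {M : Type w} [Field M₀] [Field M] [Algebra k M₀]
  [Algebra M₀ M] [Algebra k M] [IsScalarTower k M₀ M]

theorem aeval_hom_smul {A : Type v} [CommRing A] [Algebra k A] {f : MvPolynomial (Fin m) k} {d : ℕ}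
    (hf : f.IsHomogeneous d) (c : A) (x : Fin m → A) : aeval (fun i => c * x i) f = c ^ d * aeval x f := by
  rw [aeval_def, aeval_def, eval₂_eq', eval₂_eq', Finset.mul_sum]
  refine Finset.sum_congr rfl fun s hs => ?_
  have h1 : ∑ i, s i = d := by
    have := hf (mem_support_iff.1 hs)
    rw [Finsupp.weight_apply, Finsupp.sum_fintype _ _ (by simp)] at this
    simpa using this
  simp only [mul_pow, Finset.prod_mul_distrib, Finset.prod_pow_eq_pow_sum, h1]
  ring

theorem cone_iff {τ : M} (hτ : Transcendental M₀ τ) (P : Fin m → M₀) (f : MvPolynomial (Fin m) k) :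
    aeval (fun i => τ * algebraMap M₀ M (P i)) f = 0 ↔ ∀ d, aeval P (homogeneousComponent d f) = 0 := by
  classical
  have h1 : ∀ d, aeval (fun i => τ * algebraMap M₀ M (P i)) (homogeneousComponent d f) =
      τ ^ d * algebraMap M₀ M (aeval P (homogeneousComponent d f)) := by
    intro d
    rw [aeval_hom_smul (homogeneousComponent_isHomogeneous d f)]
    congr 1
    exact aeval_algebraMap_apply M P _
  have h2 : aeval (fun i => τ * algebraMap M₀ M (P i)) f =
      Polynomial.aeval τ (∑ d ∈ Finset.range (f.totalDegree + 1),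
        Polynomial.monomial d (aeval P (homogeneousComponent d f))) := by
    conv_lhs => rw [← sum_homogeneousComponent f]
    rw [map_sum, map_sum]
    refine Finset.sum_congr rfl fun d _ => ?_
    rw [h1, Polynomial.aeval_monomial, mul_comm]
  constructor
  · intro h d
    by_cases hd : d < f.totalDegree + 1
    · rw [h2] at h
      have h3 := (transcendental_iff.1 hτ) _ h
      have h4 := congrArg (fun q => Polynomial.coeff q d) h3
      simp only [Polynomial.finsetSum_coeff, Polynomial.coeff_monomial, Polynomial.coeff_zero] at h4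
      rw [Finset.sum_ite_eq' _ _ _, if_pos (Finset.mem_range.2 hd)] at h4
      exact h4
    · rw [homogeneousComponent_eq_zero _ _ (by omega), map_zero]
  · intro h
    rw [h2]
    simp [h]

/-- the cone over a point moves in a space of dimension at most the transcendence degree -/
theorem cone_TD [CharZero k] [CharZero M] [CharZero M₀] {τ : M} (hτ : Transcendental M₀ τ) (P : Fin m → M₀) {r : ℕ}
    (h : TD (aeval (fun i => τ * algebraMap M₀ M (P i)) : MvPolynomial (Fin m) k →ₐ[k] M) r) :
    ∃ Z : Submodule M (Fin m → M), Module.finrank M Z ≤ r ∧ (fun i => algebraMap M₀ M (P i)) ∈ Z ∧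
      ∀ D : Derivation k M M, (fun i => D (algebraMap M₀ M (P i))) ∈ Z := by
  obtain ⟨Z, hZ, hZD⟩ := TD_der _ h
  have hτ0 : τ ≠ 0 := by
    rintro rfl
    exact hτ (isAlgebraic_zero)
  have hmem : (fun i => algebraMap M₀ M (P i)) ∈ Z := by
    have h1 : AlgebraicIndependent M₀ (fun _ : Unit => τ) := algebraicIndependent_unique_type_iff.2 hτ
    obtain ⟨D, hD⟩ := Pool.Agent.H135R2.VS.exists_der h1 (fun _ => 1)
    have h2 := hZD (D.restrictScalars k)
    have h3 : (fun i => (D.restrictScalars k) (τ * algebraMap M₀ M (P i))) = fun i => algebraMap M₀ M (P i) := by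
      funext i
      change D (τ * algebraMap M₀ M (P i)) = _
      rw [Derivation.leibniz, hD (), Derivation.map_algebraMap, smul_zero, zero_add, smul_eq_mul, mul_one]
    rw [h3] at h2
    exact h2
  refine ⟨Z, hZ, hmem, fun D => ?_⟩
  have h1 := hZD D
  have h2 : (fun i => D (τ * algebraMap M₀ M (P i))) = τ • (fun i => D (algebraMap M₀ M (P i))) +
      D τ • (fun i => algebraMap M₀ M (P i)) := by
    funext i
    simp only [Derivation.leibniz, smul_eq_mul, Pi.add_apply, Pi.smul_apply]
    ring
  rw [h2] at h1
  have h3 := (Z.add_mem_iff_left (Z.smul_mem (D τ) hmem)).1 h1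
  exact (Z.smul_mem_iff hτ0).1 h3

end cone

end Pool.Agent.Helper4.QH
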