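import Pool.Agent.Helper4.QH.Gauss

/-!
# Lemmas N and N2 in terms of cones
-/

set_option autoImplicit false

namespace Pool.Agent.Helper4.QH

open MvPolynomial

universe u v w

/-- rational functions in one variable -/
abbrev MM (M₀ : Type v) [Field M₀] : Type v := FractionRing (Polynomial M₀)

/-- the variable -/
noncomputable def tau (M₀ : Type v) [Field M₀] : MM M₀ := algebraMap (Polynomial M₀) (MM M₀) Polynomial.X

theorem tau_tr (M₀ : Type v) [Field M₀] : Transcendental M₀ (tau M₀) := by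
  rw [tau, transcendental_iff]
  intro p hp
  have h1 : Polynomial.aeval (algebraMap (Polynomial M₀) (MM M₀) Polynomial.X) p =
      algebraMap (Polynomial M₀) (MM M₀) p := by
    rw [Polynomial.aeval_algebraMap_apply, Polynomial.aeval_X_left_apply]
  rw [h1] at hp
  exact (IsFractionRing.injective (Polynomial M₀) (MM M₀)) (by rw [hp, map_zero])

theorem tau_ne (M₀ : Type v) [Field M₀] : tau M₀ ≠ 0 := by
  intro h
  exact (tau_tr M₀) (h ▸ isAlgebraic_zero)

section

variable {k : Type u} [Field k] {m : ℕ} {M₀ : Type v} [Field M₀] [Algebra k M₀]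

/-- the generic point of the cone over a point -/
noncomputable def coneHom (P : Fin m → M₀) : MvPolynomial (Fin m) k →ₐ[k] MM M₀ :=
  aeval (fun i => tau M₀ * algebraMap M₀ (MM M₀) (P i))

theorem coneHom_iff (P : Fin m → M₀) (f : MvPolynomial (Fin m) k) :
    coneHom P f = 0 ↔ ∀ d, aeval P (homogeneousComponent d f) = 0 :=
  cone_iff (tau_tr M₀) P f

theorem coneHom_hom (P : Fin m → M₀) {f : MvPolynomial (Fin m) k} {d : ℕ} (hf : f.IsHomogeneous d) :
    coneHom P f = tau M₀ ^ d * algebraMap M₀ (MM M₀) (aeval P f) := by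
  have h1 : aeval (fun i => algebraMap M₀ (MM M₀) (P i)) f = algebraMap M₀ (MM M₀) (aeval P f) :=
    aeval_algebraMap_apply (MM M₀) P f
  rw [coneHom, aeval_hom_smul hf, h1]

theorem coneHom_hom_iff (P : Fin m → M₀) {f : MvPolynomial (Fin m) k} {d : ℕ} (hf : f.IsHomogeneous d) :
    coneHom P f = 0 ↔ aeval P f = 0 := by
  rw [coneHom_hom P hf]
  constructor
  · intro h
    rcases mul_eq_zero.1 h with h1 | h1
    · exact absurd h1 (pow_ne_zero _ (tau_ne M₀))
    · exact (algebraMap M₀ (MM M₀)).injective (by rw [h1, map_zero])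
  · intro h
    rw [h, map_zero, mul_zero]

theorem coneHom_homKer (P : Fin m → M₀) : HomKer (coneHom (k := k) P) := by
  intro f hf d
  rw [coneHom_hom_iff P (homogeneousComponent_isHomogeneous d f)]
  exact (coneHom_iff P f).1 hf d

theorem TD.mono_ker {A₁ : Type v} {A₂ : Type w} [CommRing A₁] [CommRing A₂] [Algebra k A₁]
    [Algebra k A₂] {φ₁ : MvPolynomial (Fin m) k →ₐ[k] A₁} {φ₂ : MvPolynomial (Fin m) k →ₐ[k] A₂} {r : ℕ}
    (h1 : TD φ₁ r) (hle : ∀ f, φ₁ f = 0 → φ₂ f = 0) : TD φ₂ r := by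
  intro g hg
  refine h1 g ?_
  rw [algebraicIndependent_iff] at hg ⊢
  intro p hp
  apply hg p
  have h2 : aeval (fun i => φ₁ (g i)) p = φ₁ (aeval g p) :=
    (congrFun (congrArg DFunLike.coe (comp_aeval g φ₁)) p).symm
  have h3 : aeval (fun i => φ₂ (g i)) p = φ₂ (aeval g p) :=
    (congrFun (congrArg DFunLike.coe (comp_aeval g φ₂)) p).symm
  rw [h2] at hp
  rw [h3]
  exact hle _ hp

theorem TD.comp {A : Type v} [CommRing A] [Algebra k A] {m' : ℕ} {φ : MvPolynomial (Fin m) k →ₐ[k] A} {r : ℕ}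
    (h : TD φ r) (θ : MvPolynomial (Fin m') k →ₐ[k] MvPolynomial (Fin m) k) : TD (φ.comp θ) r := by
  intro g hg
  exact h (fun i => θ (g i)) hg

end

section

variable {k : Type u} [Field k] [CharZero k] {N : ℕ} {a : Ten k N} {M₀ : Type u} [Field M₀] [Algebra k M₀]

omit [CharZero k] in
theorem Gen.ext {M : Type v} [Field M] [Algebra k M] {M' : Type w} [Field M'] [Algebra k M'] {R : Fin N → M}
    (hR : Gen a R) (f : M →ₐ[k] M') : Gen a (fun i => f (R i)) := by
  intro G
  rw [← hR G]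
  have h1 : aeval (fun i => f (R i)) G = f (aeval R G) :=
    (congrFun (congrArg DFunLike.coe (comp_aeval R f)) G).symm
  rw [h1]
  exact map_eq_zero_iff _ f.injective

omit [CharZero k] in
theorem algebraMap_ten {M : Type v} [CommRing M] [Algebra k M] {M' : Type w} [CommRing M'] [Algebra k M']
    [Algebra M M'] [IsScalarTower k M M'] (x y z t : Fin N → M) :
    T a (fun i => algebraMap M M' (x i)) (fun i => algebraMap M M' (y i)) (fun i => algebraMap M M' (z i))
      (fun i => algebraMap M M' (t i)) = algebraMap M M' (T a x y z t) :=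
  (T_map a (IsScalarTower.toAlgHom k M M') x y z t).symm

theorem Gen.ne {M : Type v} [Field M] [Algebra k M] {R : Fin N → M} (hR : Gen a R) (hN : 6 ≤ N) : R ≠ 0 := by
  rintro rfl
  have h := hR.lin (Pi.single ⟨0, by omega⟩ 1) (by simp)
  have h2 := congrFun h ⟨0, by omega⟩
  simp at h2

/-- Lemma N2 for cones -/
theorem lemN2_cone (hN2 : SN2.{u}) (hN : 6 ≤ N) (ha : IsSym a) (hsm : SmoothX a) {R P : Fin N → M₀}
    (hR : Gen a R) (hP : P ≠ 0) (h4 : T a P P P P = 0) (h3 : T a P P P R = 0) (h2 : T a P P R R = 0)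
    (hTD : TD (coneHom (k := k) P) 3) : T a R R R P ≠ 0 := by
  intro h1
  have hc0 : CharZero M₀ := charZero_of_injective_algebraMap (algebraMap k M₀).injective
  have hc : CharZero (MM M₀) := charZero_of_injective_algebraMap (algebraMap k (MM M₀)).injective
  let ι := algebraMap M₀ (MM M₀)
  obtain ⟨Z, hZ, hPZ, hZD⟩ := cone_TD (tau_tr M₀) P hTD
  have hR' : Gen a (fun i => ι (R i)) := hR.ext (IsScalarTower.toAlgHom k M₀ (MM M₀))
  obtain ⟨σ, hσ⟩ := exists_sec ha hR' (by
    by_contra hcon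
    push Not at hcon
    exact (hR'.ne hN) (hsm (MM M₀) _ hcon))
  have hP' : (fun i => ι (P i)) ≠ 0 := by
    intro h
    apply hP
    funext i
    exact ι.injective (by rw [congrFun h i]; simp)
  refine hN2 k (MM M₀) N a hN ha hsm (fun i => ι (R i)) (fun i => ι (P i)) σ hσ hP' hR'.zero ?_ ?_ ?_ ?_ Z hZ hPZ hZD
  · rw [algebraMap_ten, h1, map_zero]
  · rw [algebraMap_ten, show T a R R P P = 0 by rw [← h2, T_rot ha, T_rot ha], map_zero]
  · rw [algebraMap_ten, show T a R P P P = 0 by rw [← h3, T_rot ha, T_rot ha, T_rot ha], map_zero]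
  · rw [algebraMap_ten, h4, map_zero]

/-- Lemma N for cones -/
theorem lemN_cone (hN2 : SN2.{u}) [IsAlgClosed k] (hN : 6 ≤ N) (ha : IsSym a) (hsm : SmoothX a) {R P : Fin N → M₀}
    (hR : Gen a R) (hP : P ≠ 0) (h4 : T a P P P P = 0) (h3 : T a P P P R = 0) (h2 : T a P P R R = 0)
    (hTD : TD (coneHom (k := k) P) 2) : False := by
  have hc0 : CharZero M₀ := charZero_of_injective_algebraMap (algebraMap k M₀).injective
  have hc : CharZero (MM M₀) := charZero_of_injective_algebraMap (algebraMap k (MM M₀)).injective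
  let ι := algebraMap M₀ (MM M₀)
  obtain ⟨Z, hZ, hPZ, hZD⟩ := cone_TD (tau_tr M₀) P hTD
  have hR' : Gen a (fun i => ι (R i)) := hR.ext (IsScalarTower.toAlgHom k M₀ (MM M₀))
  obtain ⟨σ, hσ⟩ := exists_sec ha hR' (by
    by_contra hcon
    push Not at hcon
    exact (hR'.ne hN) (hsm (MM M₀) _ hcon))
  have hP' : (fun i => ι (P i)) ≠ 0 := by
    intro h
    apply hP
    funext i
    exact ι.injective (by rw [congrFun h i]; simp)
  refine lemN hN2 hN ha hsm hR' σ hσ hP' ?_ ?_ ?_ Z hZ hPZ hZD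
  · rw [algebraMap_ten, h4, map_zero]
  · rw [algebraMap_ten, h3, map_zero]
  · rw [algebraMap_ten, h2, map_zero]

end

end Pool.Agent.Helper4.QH
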