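import Mathlib

/-!
# Quartic forms as symmetric 4-tensors
-/

set_option autoImplicit false

namespace Pool.Agent.Helper4.QH

open MvPolynomial

universe u v w

/-- coefficients of a quartic form in `N` variables -/
abbrev Ten (k : Type u) (N : ℕ) : Type u := Fin N → Fin N → Fin N → Fin N → k

/-- symmetric tensors -/
structure IsSym {k : Type u} {N : ℕ} (a : Ten k N) : Prop where
  s01 : ∀ i j l m, a i j l m = a j i l m
  s12 : ∀ i j l m, a i j l m = a i l j m
  s23 : ∀ i j l m, a i j l m = a i j m l

section

variable {k : Type u} [Field k] {N : ℕ} (a : Ten k N) {M : Type v} [CommRing M] [Algebra k M]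

/-- the 4-linear form with values in a `k`-algebra -/
def T (x y z t : Fin N → M) : M :=
  ∑ i, ∑ j, ∑ l, ∑ m, algebraMap k M (a i j l m) * (x i * y j * z l * t m)

theorem T_add1 (x x' y z t : Fin N → M) : T a (x + x') y z t = T a x y z t + T a x' y z t := by
  simp only [T, ← Finset.sum_add_distrib, Pi.add_apply]
  exact Finset.sum_congr rfl fun i _ => Finset.sum_congr rfl fun j _ => Finset.sum_congr rfl fun l _ =>
    Finset.sum_congr rfl fun m _ => by ring

theorem T_add2 (x y y' z t : Fin N → M) : T a x (y + y') z t = T a x y z t + T a x y' z t := by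
  simp only [T, ← Finset.sum_add_distrib, Pi.add_apply]
  exact Finset.sum_congr rfl fun i _ => Finset.sum_congr rfl fun j _ => Finset.sum_congr rfl fun l _ =>
    Finset.sum_congr rfl fun m _ => by ring

theorem T_add3 (x y z z' t : Fin N → M) : T a x y (z + z') t = T a x y z t + T a x y z' t := by
  simp only [T, ← Finset.sum_add_distrib, Pi.add_apply]
  exact Finset.sum_congr rfl fun i _ => Finset.sum_congr rfl fun j _ => Finset.sum_congr rfl fun l _ =>
    Finset.sum_congr rfl fun m _ => by ring

theorem T_add4 (x y z t t' : Fin N → M) : T a x y z (t + t') = T a x y z t + T a x y z t' := by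
  simp only [T, ← Finset.sum_add_distrib, Pi.add_apply]
  exact Finset.sum_congr rfl fun i _ => Finset.sum_congr rfl fun j _ => Finset.sum_congr rfl fun l _ =>
    Finset.sum_congr rfl fun m _ => by ring

theorem T_smul1 (c : M) (x y z t : Fin N → M) : T a (c • x) y z t = c * T a x y z t := by
  simp only [T, Finset.mul_sum, Pi.smul_apply, smul_eq_mul]
  exact Finset.sum_congr rfl fun i _ => Finset.sum_congr rfl fun j _ => Finset.sum_congr rfl fun l _ =>
    Finset.sum_congr rfl fun m _ => by ring

theorem T_smul2 (c : M) (x y z t : Fin N → M) : T a x (c • y) z t = c * T a x y z t := by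
  simp only [T, Finset.mul_sum, Pi.smul_apply, smul_eq_mul]
  exact Finset.sum_congr rfl fun i _ => Finset.sum_congr rfl fun j _ => Finset.sum_congr rfl fun l _ =>
    Finset.sum_congr rfl fun m _ => by ring

theorem T_smul3 (c : M) (x y z t : Fin N → M) : T a x y (c • z) t = c * T a x y z t := by
  simp only [T, Finset.mul_sum, Pi.smul_apply, smul_eq_mul]
  exact Finset.sum_congr rfl fun i _ => Finset.sum_congr rfl fun j _ => Finset.sum_congr rfl fun l _ =>
    Finset.sum_congr rfl fun m _ => by ring

theorem T_smul4 (c : M) (x y z t : Fin N → M) : T a x y z (c • t) = c * T a x y z t := by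
  simp only [T, Finset.mul_sum, Pi.smul_apply, smul_eq_mul]
  exact Finset.sum_congr rfl fun i _ => Finset.sum_congr rfl fun j _ => Finset.sum_congr rfl fun l _ =>
    Finset.sum_congr rfl fun m _ => by ring

theorem T_sub1 (x x' y z t : Fin N → M) : T a (x - x') y z t = T a x y z t - T a x' y z t := by
  have h := T_add1 a (x - x') x' y z t
  rw [sub_add_cancel] at h
  linear_combination -h

theorem T_sub2 (x y y' z t : Fin N → M) : T a x (y - y') z t = T a x y z t - T a x y' z t := by
  have h := T_add2 a x (y - y') y' z t
  rw [sub_add_cancel] at h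
  linear_combination -h

theorem T_sub3 (x y z z' t : Fin N → M) : T a x y (z - z') t = T a x y z t - T a x y z' t := by
  have h := T_add3 a x y (z - z') z' t
  rw [sub_add_cancel] at h
  linear_combination -h

theorem T_sub4 (x y z t t' : Fin N → M) : T a x y z (t - t') = T a x y z t - T a x y z t' := by
  have h := T_add4 a x y z (t - t') t'
  rw [sub_add_cancel] at h
  linear_combination -h

@[simp] theorem T_zero1 (y z t : Fin N → M) : T a 0 y z t = 0 := by simp [T]
@[simp] theorem T_zero2 (x z t : Fin N → M) : T a x 0 z t = 0 := by simp [T]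
@[simp] theorem T_zero3 (x y t : Fin N → M) : T a x y 0 t = 0 := by simp [T]
@[simp] theorem T_zero4 (x y z : Fin N → M) : T a x y z 0 = 0 := by simp [T]

variable {a}

theorem T_s01 (ha : IsSym a) (x y z t : Fin N → M) : T a x y z t = T a y x z t := by
  simp only [T]
  rw [Finset.sum_comm]
  exact Finset.sum_congr rfl fun i _ => Finset.sum_congr rfl fun j _ => Finset.sum_congr rfl fun l _ =>
    Finset.sum_congr rfl fun m _ => by rw [ha.s01 j i l m]; ring

theorem T_s12 (ha : IsSym a) (x y z t : Fin N → M) : T a x y z t = T a x z y t := by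
  simp only [T]
  refine Finset.sum_congr rfl fun i _ => ?_
  rw [Finset.sum_comm]
  exact Finset.sum_congr rfl fun j _ => Finset.sum_congr rfl fun l _ =>
    Finset.sum_congr rfl fun m _ => by rw [ha.s12 i l j m]; ring

theorem T_s23 (ha : IsSym a) (x y z t : Fin N → M) : T a x y z t = T a x y t z := by
  simp only [T]
  refine Finset.sum_congr rfl fun i _ => Finset.sum_congr rfl fun j _ => ?_
  rw [Finset.sum_comm]
  exact Finset.sum_congr rfl fun l _ =>
    Finset.sum_congr rfl fun m _ => by rw [ha.s23 i j m l]; ring

/-- `T x x x y` in all orders -/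
theorem T_rot (ha : IsSym a) (x y z t : Fin N → M) : T a x y z t = T a t x y z := by
  rw [T_s23 ha, T_s12 ha, T_s01 ha]

variable (a)

/-- the last slot as a linear map -/
def Tl (x y z : Fin N → M) : (Fin N → M) →ₗ[M] M where
  toFun t := T a x y z t
  map_add' t t' := T_add4 a x y z t t'
  map_smul' c t := T_smul4 a c x y z t

@[simp] theorem Tl_apply (x y z t : Fin N → M) : Tl a x y z t = T a x y z t := rfl

theorem T_map {M' : Type w} [CommRing M'] [Algebra k M'] (f : M →ₐ[k] M') (x y z t : Fin N → M) :
    f (T a x y z t) = T a (fun i => f (x i)) (fun i => f (y i)) (fun i => f (z i)) (fun i => f (t i)) := by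
  simp only [T, map_sum, map_mul, AlgHom.commutes]

/-- derivations -/
theorem T_D (D : Derivation k M M) (x y z t : Fin N → M) :
    D (T a x y z t) = T a (fun i => D (x i)) y z t + T a x (fun i => D (y i)) z t +
      T a x y (fun i => D (z i)) t + T a x y z (fun i => D (t i)) := by
  simp only [T, map_sum, ← Finset.sum_add_distrib]
  refine Finset.sum_congr rfl fun i _ => Finset.sum_congr rfl fun j _ => Finset.sum_congr rfl fun l _ =>
    Finset.sum_congr rfl fun m _ => ?_
  simp only [Derivation.leibniz, smul_eq_mul, Derivation.map_algebraMap, mul_zero, add_zero]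
  ring

/-- the matrix of the quadratic form `T P P · ·` -/
def Hm (P : Fin N → M) : Matrix (Fin N) (Fin N) M := fun i j => T a P P (Pi.single i 1) (Pi.single j 1)

/-- nondegeneracy of `T P P · ·` -/
def ND (P : Fin N → M) : Prop := ∀ x : Fin N → M, (∀ y, T a P P x y = 0) → x = 0

theorem T_basis4 (x y z t : Fin N → M) : T a x y z t = ∑ i, T a x y z (Pi.single i 1) * t i := by
  classical
  have h : t = ∑ i, t i • (Pi.single i 1 : Fin N → M) := by
    funext j
    simp [Finset.sum_apply, Pi.single_apply]
  have h2 : Tl a x y z t = ∑ i, T a x y z (Pi.single i 1) * t i := by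
    conv_lhs => rw [h]
    rw [map_sum]
    exact Finset.sum_congr rfl fun i _ => by rw [map_smul, Tl_apply, smul_eq_mul, mul_comm]
  exact h2

/-- the third slot as a linear map -/
def Tl3 (x y t : Fin N → M) : (Fin N → M) →ₗ[M] M where
  toFun z := T a x y z t
  map_add' z z' := T_add3 a x y z z' t
  map_smul' c z := T_smul3 a c x y z t

theorem T_basis3 (x y z t : Fin N → M) : T a x y z t = ∑ i, z i * T a x y (Pi.single i 1) t := by
  classical
  have h : z = ∑ i, z i • (Pi.single i 1 : Fin N → M) := by
    funext j
    simp [Finset.sum_apply, Pi.single_apply]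
  have h2 : Tl3 a x y t z = ∑ i, z i * T a x y (Pi.single i 1) t := by
    conv_lhs => rw [h]
    rw [map_sum]
    exact Finset.sum_congr rfl fun i _ => by rw [map_smul, smul_eq_mul]; rfl
  exact h2

theorem T_Hm (P x y : Fin N → M) : T a P P x y = x ⬝ᵥ (Hm a P).mulVec y := by
  rw [T_basis3]
  simp only [dotProduct, Matrix.mulVec]
  refine Finset.sum_congr rfl fun i _ => ?_
  rw [T_basis4]
  rfl

end

end Pool.Agent.Helper4.QH
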