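import Pool.Agent.Helper4.QH.TD
import Pool.Agent.Helper4.QH.Ten

/-!
# The form of a tensor, the generic point, and derivations
-/

set_option autoImplicit false

namespace Pool.Agent.Helper4.QH

open MvPolynomial

universe u v w

section

variable {k : Type u} [Field k] {N : ℕ} (a : Ten k N)

/-- the quartic form of a tensor -/
noncomputable def form : MvPolynomial (Fin N) k :=
  ∑ i, ∑ j, ∑ l, ∑ m, C (a i j l m) * (X i * X j * X l * X m)

theorem aeval_form {M : Type v} [CommRing M] [Algebra k M] (x : Fin N → M) :
    aeval x (form a) = T a x x x x := by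
  simp only [form, T, map_sum, map_mul, aeval_C, aeval_X]

theorem form_eq_T : form a = T a (X : Fin N → MvPolynomial (Fin N) k) X X X := by
  have h := aeval_form a (X : Fin N → MvPolynomial (Fin N) k)
  rw [aeval_X_left] at h
  exact h

theorem form_hom : (form a).IsHomogeneous 4 := by
  refine IsHomogeneous.sum _ _ _ fun i _ => IsHomogeneous.sum _ _ _ fun j _ =>
    IsHomogeneous.sum _ _ _ fun l _ => IsHomogeneous.sum _ _ _ fun m _ => ?_
  have h := (((isHomogeneous_X k i).mul (isHomogeneous_X k j)).mul (isHomogeneous_X k l)).mul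
    (isHomogeneous_X k m)
  have h2 := (isHomogeneous_C (Fin N) (a i j l m)).mul h
  exact h2

variable {a}

theorem pderiv_form (ha : IsSym a) {M : Type v} [CommRing M] [Algebra k M] (x : Fin N → M) (i : Fin N) :
    aeval x (pderiv i (form a)) = 4 * T a x x x (Pi.single i 1) := by
  classical
  rw [form_eq_T, T_D]
  have hX : (fun j => pderiv i (X j : MvPolynomial (Fin N) k)) = fun j => C ((Pi.single i 1 : Fin N → k) j) := by
    funext j
    by_cases hij : j = i
    · subst hij
      simp
    · rw [pderiv_X_of_ne (Ne.symm (fun h => hij h.symm)), Pi.single_eq_of_ne hij, map_zero]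
  rw [hX]
  have hS : (fun j => aeval x (C ((Pi.single i 1 : Fin N → k) j) : MvPolynomial (Fin N) k)) = (Pi.single i 1 : Fin N → M) := by
    funext j
    rw [aeval_C]
    by_cases hij : j = i
    · subst hij
      simp
    · simp [Pi.single_eq_of_ne hij]
  simp only [map_add, T_map, aeval_X, hS]
  have e1 : T a (Pi.single i 1) x x x = T a x x x (Pi.single i 1) := (T_rot ha x x x _).symm
  have e2 : T a x (Pi.single i 1) x x = T a x x x (Pi.single i 1) := by
    rw [T_s12 ha, T_s23 ha]
  have e3 : T a x x (Pi.single i 1) x = T a x x x (Pi.single i 1) := T_s23 ha _ _ _ _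
  rw [e1, e2, e3]
  ring

/-- a linear form in the direction `e i` -/
theorem sum_single {M : Type v} [CommRing M] [Algebra k M] (x w : Fin N → M) :
    T a x x x w = ∑ i, T a x x x (Pi.single i 1) * w i := T_basis4 a x x x w

end

section tens

variable {k : Type u} [Field k] [CharZero k] {N : ℕ}

omit [CharZero k] in
theorem pd_comm (i j : Fin N) (G : MvPolynomial (Fin N) k) :
    pderiv i (pderiv j G) = pderiv j (pderiv i G) := by
  have h : ⁅(pderiv i : Derivation k (MvPolynomial (Fin N) k) (MvPolynomial (Fin N) k)),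
      (pderiv j : Derivation k (MvPolynomial (Fin N) k) (MvPolynomial (Fin N) k))⁆ = 0 := by
    classical
    refine derivation_ext fun l => ?_
    rw [Derivation.commutator_apply, pderiv_X, pderiv_X, Derivation.zero_apply]
    by_cases h1 : j = l
    · subst h1
      by_cases h2 : i = j
      · subst h2; simp
      · simp [Pi.single_eq_of_ne (Ne.symm h2)]
    · by_cases h2 : i = l
      · subst h2; simp [Pi.single_eq_of_ne (Ne.symm h1)]
      · simp [Pi.single_eq_of_ne (Ne.symm h1), Pi.single_eq_of_ne (Ne.symm h2)]
  have h2 := congrArg (fun D : Derivation k (MvPolynomial (Fin N) k) (MvPolynomial (Fin N) k) => D G) h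
  simp only [Derivation.commutator_apply, Derivation.zero_apply] at h2
  exact sub_eq_zero.1 h2

omit [CharZero k] in
theorem euler1 {F : MvPolynomial (Fin N) k} {d : ℕ} (hF : F.IsHomogeneous d) :
    (d : MvPolynomial (Fin N) k) * F = ∑ i, X i * pderiv i F := by
  have h := hF.sum_X_mul_pderiv
  rw [h, nsmul_eq_mul]

/-- the symmetric tensor of a quartic form -/
theorem exists_ten (F : MvPolynomial (Fin N) k) (hF : F.IsHomogeneous 4) :
    ∃ a : Ten k N, IsSym a ∧ form a = F := by
  classical
  have h1 : ∀ i, (pderiv i F).IsHomogeneous 3 := fun i => hF.pderiv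
  have h2 : ∀ i j, (pderiv j (pderiv i F)).IsHomogeneous 2 := fun i j => (h1 i).pderiv
  have h3 : ∀ i j l, (pderiv l (pderiv j (pderiv i F))).IsHomogeneous 1 := fun i j l => (h2 i j).pderiv
  have h4 : ∀ i j l m, (pderiv m (pderiv l (pderiv j (pderiv i F)))).IsHomogeneous 0 :=
    fun i j l m => (h3 i j l).pderiv
  have hC : ∀ i j l m, pderiv m (pderiv l (pderiv j (pderiv i F))) =
      C (coeff 0 (pderiv m (pderiv l (pderiv j (pderiv i F))))) := by
    intro i j l m
    exact totalDegree_eq_zero_iff_eq_C.1 (Nat.le_zero.1 (h4 i j l m).totalDegree_le)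
  have hcomm : ∀ (i j : Fin N) (G : MvPolynomial (Fin N) k), pderiv i (pderiv j G) = pderiv j (pderiv i G) := by
    intro i j G
    exact pd_comm i j G
  refine ⟨fun i j l m => (1 / 24 : k) * coeff 0 (pderiv m (pderiv l (pderiv j (pderiv i F)))), ⟨?_, ?_, ?_⟩, ?_⟩
  · intro i j l m
    rw [hcomm j i]
  · intro i j l m
    rw [hcomm l j]
  · intro i j l m
    rw [hcomm m l]
  · have e1 := euler1 hF
    have e2 := fun i => euler1 (h1 i)
    have e3 := fun i j => euler1 (h2 i j)
    have e4 := fun i j l => euler1 (h3 i j l)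
    have key : (24 : MvPolynomial (Fin N) k) * F = ∑ i, ∑ j, ∑ l, ∑ m,
        C (coeff 0 (pderiv m (pderiv l (pderiv j (pderiv i F))))) * (X i * X j * X l * X m) := by
      have s1 : (24 : MvPolynomial (Fin N) k) * F = 6 * ∑ i, X i * pderiv i F := by
        rw [← e1]; push_cast; ring
      have s2 : ∀ i, (6 : MvPolynomial (Fin N) k) * (X i * pderiv i F) = 2 * (X i * ∑ j, X j * pderiv j (pderiv i F)) := by
        intro i
        rw [← e2 i]; push_cast; ring
      have s3 : ∀ i j, (2 : MvPolynomial (Fin N) k) * (X i * (X j * pderiv j (pderiv i F))) =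
          X i * (X j * ∑ l, X l * pderiv l (pderiv j (pderiv i F))) := by
        intro i j
        rw [← e3 i j]; push_cast; ring
      rw [s1, Finset.mul_sum]
      refine Finset.sum_congr rfl fun i _ => ?_
      rw [s2 i, Finset.mul_sum, Finset.mul_sum]
      refine Finset.sum_congr rfl fun j _ => ?_
      rw [s3 i j, Finset.mul_sum, Finset.mul_sum]
      refine Finset.sum_congr rfl fun l _ => ?_
      have s4 := e4 i j l
      rw [Nat.cast_one, one_mul] at s4
      have s5 : X i * (X j * (X l * pderiv l (pderiv j (pderiv i F)))) =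
          X i * (X j * (X l * ∑ m, X m * pderiv m (pderiv l (pderiv j (pderiv i F))))) := by
        rw [← s4]
      rw [s5, Finset.mul_sum, Finset.mul_sum, Finset.mul_sum]
      refine Finset.sum_congr rfl fun m _ => ?_
      rw [← hC i j l m]
      ring
    have h24 : (C (1 / 24 : k) : MvPolynomial (Fin N) k) * 24 = 1 := by
      have : (24 : MvPolynomial (Fin N) k) = C (24 : k) := (map_ofNat C 24).symm
      rw [this, ← C_mul]
      norm_num
    have e5 : F = C (1 / 24 : k) * (24 * F) := by
      rw [← mul_assoc, h24, one_mul]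
    conv_rhs => rw [e5, key]
    rw [form]
    simp only [Finset.mul_sum]
    refine Finset.sum_congr rfl fun i _ => Finset.sum_congr rfl fun j _ => Finset.sum_congr rfl fun l _ =>
      Finset.sum_congr rfl fun m _ => ?_
    rw [C_mul]
    ring

end tens

end Pool.Agent.Helper4.QH
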