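import Pool.Agent.Helper4.QH.Null

/-!
# The Hessian at the generic point
-/

set_option autoImplicit false

namespace Pool.Agent.Helper4.QH

open MvPolynomial

universe u v w

section

variable {k : Type u} [Field k] {N : ℕ} (a : Ten k N)

/-- the Hessian determinant, up to a factor -/
noncomputable def hdet {M : Type v} [CommRing M] [Algebra k M] (x : Fin N → M) : M := (Hm a x).det

theorem hdet_map {M : Type v} [CommRing M] [Algebra k M] {M' : Type w} [CommRing M'] [Algebra k M']
    (f : M →ₐ[k] M') (x : Fin N → M) : f (hdet a x) = hdet a (fun i => f (x i)) := by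
  rw [hdet, hdet, AlgHom.map_det]
  congr 1
  funext i j
  change f (T a x x (Pi.single i 1) (Pi.single j 1)) = _
  rw [T_map]
  have hS : ∀ i : Fin N, (fun j => f ((Pi.single i 1 : Fin N → M) j)) = (Pi.single i 1 : Fin N → M') := by
    intro i
    funext j
    by_cases hij : j = i
    · subst hij
      simp
    · simp [Pi.single_eq_of_ne hij]
  rw [hS, hS]
  rfl

theorem hdet_smul {M : Type v} [CommRing M] [Algebra k M] (c : M) (x : Fin N → M) :
    hdet a (c • x) = (c ^ 2) ^ N * hdet a x := by
  have h : Hm a (c • x) = (c ^ 2) • Hm a x := by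
    funext i j
    change T a (c • x) (c • x) _ _ = c ^ 2 * T a x x _ _
    rw [T_smul1, T_smul2]
    ring
  rw [hdet, h, Matrix.det_smul, Fintype.card_fin]
  rfl

variable {a}

theorem mulVec_Hm {M : Type v} [CommRing M] [Algebra k M] (P x : Fin N → M) (i : Fin N) :
    (Hm a P).mulVec x i = T a P P (Pi.single i 1) x := by
  rw [T_basis4]
  rfl

theorem hdet_nd (ha : IsSym a) {M : Type v} [Field M] [Algebra k M] {P : Fin N → M} (h : hdet a P ≠ 0) :
    ND a P := by
  intro x hx
  by_contra hx0
  apply h
  rw [hdet, ← Matrix.exists_mulVec_eq_zero_iff]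
  refine ⟨x, hx0, ?_⟩
  funext i
  rw [mulVec_Hm, T_s23 ha, hx]
  rfl

theorem gauss (hI : SInt.{u, u}) [IsAlgClosed k] [CharZero k] (ha : IsSym a) (hsm : Sm a)
    {M : Type u} [Field M] [Algebra k M] [CharZero M] {R : Fin N → M}
    (σ : (Fin N → M) →ₗ[M] Derivation k M M)
    (hσ : ∀ w, T a R R R w = 0 → ∀ i, σ w (R i) = w i) : hdet a R ≠ 0 := by
  classical
  intro h0
  rw [hdet, ← Matrix.exists_mulVec_eq_zero_iff] at h0
  obtain ⟨x, hx0, hx⟩ := h0
  have hx1 : ∀ i : Fin N, T a R R x (Pi.single i 1) = 0 := by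
    intro i
    rw [T_s23 ha, ← mulVec_Hm, hx]
    rfl
  have hx2 : ∀ y, T a R R x y = 0 := by
    intro y
    rw [T_basis4]
    exact Finset.sum_eq_zero fun i _ => by rw [hx1, zero_mul]
  have hD := hσ x (by rw [T_s23 ha]; exact hx2 R)
  have hDR : (fun i => σ x (R i)) = x := funext hD
  have hDg : ∀ i, σ x (T a R R R (Pi.single i 1)) = 0 := by
    intro i
    have e3 : (fun l => σ x ((Pi.single i 1 : Fin N → M) l)) = 0 := by
      funext l
      by_cases hl : l = i
      · subst hl
        simp
      · simp [Pi.single_eq_of_ne hl]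
    rw [T_D, e3, hDR, T_zero4, T_s01 ha x R R, T_s12 ha R x R, hx1]
    ring
  -- the coordinates of `R` are algebraic over the gradient
  have hint := hI k (MvPolynomial (Fin N) k) N N (AlgHom.id k _) (by
    intro f hf d
    have hf' : f = 0 := hf
    rw [hf', map_zero, map_zero]) (gr a) (fun _ => 3) (fun _ => by norm_num) (fun i => gr_hom i) (by
    intro i
    have h1 := hsm.rad i
    exact Ideal.radical_mono le_sup_right h1)
  apply hx0
  funext j
  rw [← hD j]
  have hj := hint j
  let ev : MvPolynomial (Fin N) k →ₐ[k] M := aeval R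
  let S := Algebra.adjoin k (Set.range fun j => (AlgHom.id k (MvPolynomial (Fin N) k)) (gr a j))
  let S' := Algebra.adjoin k (Set.range fun j => T a R R R (Pi.single j 1))
  have hmem : ∀ s : S, ev s ∈ S' := by
    intro s
    have h1 : ev s ∈ Subalgebra.map ev S := ⟨s, s.2, rfl⟩
    rw [AlgHom.map_adjoin, ← Set.range_comp] at h1
    have h2 : (ev ∘ fun j => (AlgHom.id k (MvPolynomial (Fin N) k)) (gr a j)) =
        fun j => T a R R R (Pi.single j 1) := by
      funext j
      change aeval R (gr a j) = _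
      rw [aeval_gr]
    rw [h2] at h1
    exact h1
  let φ : S →+* S' := ((ev : MvPolynomial (Fin N) k →+* M).comp S.val.toRingHom).codRestrict S' hmem
  have hint' : IsIntegral S' (ev (X j)) := by
    refine IsIntegral.map_of_comp_eq φ (ev : MvPolynomial (Fin N) k →+* M) ?_ hj
    ext s
    rfl
  have h5 : IsAlgebraic S' (ev (X j)) := hint'.isAlgebraic
  have h6 := Pool.Agent.R867.J.der_cl (σ x) (S := Set.range fun j => T a R R R (Pi.single j 1)) (by
    rintro _ ⟨i, rfl⟩
    exact hDg i) (z := ev (X j)) h5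
  rw [aeval_X] at h6
  rw [h6]
  rfl

end

end Pool.Agent.Helper4.QH
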