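import Pool.Agent.Helper4.QH.Ten

/-!
# Statements of the modules LANG, GRD, NTWO
-/

set_option autoImplicit false

namespace Pool.Agent.Helper4.QH

open MvPolynomial

universe u v w

/-- LANG: quadratic forms in at least five variables over `k(s₁, s₂)`, `k` algebraically closed. -/
def SLang : Prop := ∀ (k : Type u) [Field k] [IsAlgClosed k] (n : ℕ), 5 ≤ n →
  ∀ c : Fin n → Fin n → FractionRing (MvPolynomial (Fin 2) k),
    ∃ w : Fin n → FractionRing (MvPolynomial (Fin 2) k), w ≠ 0 ∧ ∑ i, ∑ j, c i j * w i * w j = 0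

/-- the kernel is a homogeneous ideal -/
def HomKer {K : Type u} {A : Type v} [Field K] [CommRing A] [Algebra K A] {N : ℕ}
    (φ : MvPolynomial (Fin N) K →ₐ[K] A) : Prop :=
  ∀ f, φ f = 0 → ∀ d, φ (homogeneousComponent d f) = 0

/-- GRD, part 1: integrality over the subalgebra generated by forms without common zero on the cone. -/
def SInt : Prop := ∀ (K : Type u) [Field K] (A : Type v) [CommRing A] [Algebra K A] (N r : ℕ)
  (φ : MvPolynomial (Fin N) K →ₐ[K] A), HomKer φ →
  ∀ (g : Fin r → MvPolynomial (Fin N) K) (e : Fin r → ℕ), (∀ j, 0 < e j) →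
  (∀ j, (g j).IsHomogeneous (e j)) →
  (∀ i, X i ∈ (RingHom.ker φ ⊔ Ideal.span (Set.range g)).radical) →
  ∀ i, IsIntegral (Algebra.adjoin K (Set.range fun j => φ (g j))) (φ (X i))

/-- GRD, part 2: `r` forms on a cone of dimension more than `r` have a common zero off the vertex. -/
def SPt : Prop := ∀ (K : Type u) [Field K] (A : Type v) [CommRing A] [IsDomain A] [Algebra K A] (N r : ℕ)
  (φ : MvPolynomial (Fin N) K →ₐ[K] A), HomKer φ →
  ∀ (g : Fin r → MvPolynomial (Fin N) K) (e : Fin r → ℕ), (∀ j, 0 < e j) →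
  (∀ j, (g j).IsHomogeneous (e j)) →
  (∃ t : Fin (r + 1) → MvPolynomial (Fin N) K, AlgebraicIndependent K (fun j => φ (t j))) →
  ∃ Q : Ideal (MvPolynomial (Fin N) K), Q.IsPrime ∧ RingHom.ker φ ≤ Q ∧ (∀ j, g j ∈ Q) ∧
    ∃ i, X i ∉ Q

/-- nonsingular in all field extensions: the partial derivatives have no common zero -/
def SmoothX {k : Type u} [Field k] {N : ℕ} (a : Ten k N) : Prop :=
  ∀ (M : Type u) [Field M] [Algebra k M] (x : Fin N → M), (∀ y, T a x x x y = 0) → x = 0

/-- NTWO: a line through the point `R` and a point `P` which moves in an at most two-dimensional family. -/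
def SN2 : Prop := ∀ (k : Type u) [Field k] (M : Type u) [Field M] [CharZero M] [Algebra k M] (N : ℕ)
  (a : Ten k N), 6 ≤ N → IsSym a → SmoothX a →
  ∀ (R P : Fin N → M) (σ : (Fin N → M) →ₗ[M] Derivation k M M),
    (∀ w, T a R R R w = 0 → ∀ i, σ w (R i) = w i) → P ≠ 0 →
    T a R R R R = 0 → T a R R R P = 0 → T a R R P P = 0 → T a R P P P = 0 → T a P P P P = 0 →
    (∀ Z : Submodule M (Fin N → M), Module.finrank M Z ≤ 3 → P ∈ Z →
      (∀ D : Derivation k M M, (fun i => D (P i)) ∈ Z) → False)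

end Pool.Agent.Helper4.QH
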