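import Pool.Agent.Helper4.QH.Cone
import Pool.Agent.Helper4.QH.Stm

/-!
# Lemma N
-/

set_option autoImplicit false

namespace Pool.Agent.Helper4.QH

open MvPolynomial

universe u v w

section lin

variable {M : Type u} [Field M] {V : Type v} {W : Type w} [AddCommGroup V] [Module M V] [AddCommGroup W] [Module M W]

theorem rel_of_kill [FiniteDimensional M V] (U : Submodule M V) {r : ℕ}
    (h : Module.finrank M V ≤ Module.finrank M U + r) (f : Fin (r + 1) → Module.Dual M V)
    (hf : ∀ i, ∀ x ∈ U, f i x = 0) : ∃ g : Fin (r + 1) → M, ∑ i, g i • f i = 0 ∧ ∃ i, g i ≠ 0 := by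
  refine Fintype.not_linearIndependent_iff.1 fun hli => ?_
  have h1 : ∀ i, f i ∈ U.dualAnnihilator := fun i => (Submodule.mem_dualAnnihilator _).2 (hf i)
  have h2 : Submodule.span M (Set.range f) ≤ U.dualAnnihilator := by
    rw [Submodule.span_le]
    rintro _ ⟨i, rfl⟩
    exact h1 i
  have h3 := finrank_span_eq_card hli
  rw [Fintype.card_fin] at h3
  have h4 := Submodule.finrank_mono h2
  have h5 := Subspace.finrank_add_finrank_dualAnnihilator_eq U
  omega

theorem dim_comap [FiniteDimensional M V] [FiniteDimensional M W] (L : V →ₗ[M] W) (H : Submodule M V)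
    (S Z : Submodule M W) (hSZ : S ≤ Z) (hL : ∀ x ∈ H, L x ∈ Z) :
    Module.finrank M H + Module.finrank M S ≤
      Module.finrank M (H ⊓ Submodule.comap L S : Submodule M V) + Module.finrank M Z := by
  let L' : H →ₗ[M] W ⧸ S := (S.mkQ.comp L).comp H.subtype
  have h1 := LinearMap.finrank_range_add_finrank_ker L'
  have h2 : LinearMap.range L' ≤ Submodule.map S.mkQ Z := by
    rintro _ ⟨x, rfl⟩
    exact ⟨L x, hL x x.2, rfl⟩
  have h3 := Submodule.finrank_mono h2
  have h4 : Module.finrank M (Submodule.map S.mkQ Z) + Module.finrank M S = Module.finrank M Z := by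
    have h5 := LinearMap.finrank_range_add_finrank_ker (S.mkQ.comp Z.subtype)
    have h6 : LinearMap.range (S.mkQ.comp Z.subtype) = Submodule.map S.mkQ Z := by
      rw [LinearMap.range_comp, Submodule.range_subtype]
    have h7 : LinearMap.ker (S.mkQ.comp Z.subtype) = Submodule.comap Z.subtype S := by
      rw [LinearMap.ker_comp, Submodule.ker_mkQ]
    rw [h6, h7] at h5
    have h8 : Module.finrank M (Submodule.comap Z.subtype S) = Module.finrank M S :=
      (Submodule.comapSubtypeEquivOfLe hSZ).finrank_eq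
    omega
  have h5 : Module.finrank M (LinearMap.ker L') =
      Module.finrank M (H ⊓ Submodule.comap L S : Submodule M V) := by
    have h6 : Submodule.map H.subtype (LinearMap.ker L') = H ⊓ Submodule.comap L S := by
      ext x
      simp only [Submodule.mem_map, LinearMap.mem_ker, Submodule.mem_inf, Submodule.mem_comap]
      constructor
      · rintro ⟨y, hy, rfl⟩
        refine ⟨y.2, ?_⟩
        exact (Submodule.Quotient.mk_eq_zero S).1 hy
      · rintro ⟨hx, hx'⟩
        exact ⟨⟨x, hx⟩, (Submodule.Quotient.mk_eq_zero S).2 hx', rfl⟩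
    rw [← h6]
    exact (LinearEquiv.finrank_eq (Submodule.equivMapOfInjective _ H.injective_subtype _))
  omega

theorem finrank_ker_dual [FiniteDimensional M V] (f : Module.Dual M V) :
    Module.finrank M V ≤ Module.finrank M (LinearMap.ker f) + 1 := by
  have h1 := LinearMap.finrank_range_add_finrank_ker f
  have h2 : Module.finrank M (LinearMap.range f) ≤ 1 := by
    have := Submodule.finrank_le (LinearMap.range f)
    rwa [Module.finrank_self] at this
  omega

theorem finrank_ker_dual' [FiniteDimensional M V] (f : Module.Dual M V) (hf : ∃ x, f x ≠ 0) :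
    Module.finrank M V = Module.finrank M (LinearMap.ker f) + 1 := by
  have h1 := LinearMap.finrank_range_add_finrank_ker f
  obtain ⟨x, hx⟩ := hf
  have h2 : LinearMap.range f = ⊤ := by
    rw [LinearMap.range_eq_top]
    intro c
    exact ⟨(c / f x) • x, by rw [map_smul, smul_eq_mul, div_mul_cancel₀ _ hx]⟩
  rw [h2, finrank_top, Module.finrank_self] at h1
  omega

end lin

section

variable {k : Type u} [Field k] {N : ℕ} {a : Ten k N}

/-- the generic point is in no hyperplane -/
theorem Gen.lin {M : Type v} [CommRing M] [Algebra k M] {R : Fin N → M} (hR : Gen a R) (c : Fin N → k)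
    (h : ∑ i, algebraMap k M (c i) * R i = 0) : c = 0 := by
  classical
  let G : MvPolynomial (Fin N) k := ∑ i, C (c i) * X i
  have hG : aeval R G = 0 := by
    simp only [G, map_sum, map_mul, aeval_C, aeval_X]
    exact h
  have hG1 : G.IsHomogeneous 1 := IsHomogeneous.sum _ _ _ fun i _ => by
    have := (isHomogeneous_C (Fin N) (c i)).mul (isHomogeneous_X k i)
    exact this
  have hG0 : G = 0 := by
    by_contra hne
    obtain ⟨q, hq⟩ := (hR G).1 hG
    have hf0 : form a ≠ 0 := by
      intro h
      apply hne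
      rw [hq, h, zero_mul]
    have hq0 : q ≠ 0 := by
      intro h
      apply hne
      rw [hq, h, mul_zero]
    have h1 := hG1.totalDegree hne
    rw [hq, totalDegree_mul_of_isDomain hf0 hq0, (form_hom a).totalDegree hf0] at h1
    omega
  funext i
  have h1 := congrArg (coeff (Finsupp.single i 1)) hG0
  simp only [G, coeff_sum, coeff_C_mul, coeff_X, coeff_zero] at h1
  rw [Finset.sum_eq_single i] at h1
  · simpa using h1
  · intro j _ hji
    rw [if_neg, mul_zero]
    intro h2
    exact hji (Finsupp.single_left_injective one_ne_zero h2)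
  · intro h2
    exact absurd (Finset.mem_univ _) h2

variable [CharZero k] [IsAlgClosed k] {M : Type u} [Field M] [Algebra k M] [CharZero M]

/-- the map `w ↦ (σ w) P` -/
def Lσ (σ : (Fin N → M) →ₗ[M] Derivation k M M) (P : Fin N → M) : (Fin N → M) →ₗ[M] (Fin N → M) where
  toFun w := fun i => σ w (P i)
  map_add' w w' := by
    funext i
    rw [map_add]
    rfl
  map_smul' c w := by
    funext i
    rw [map_smul]
    rfl

omit [CharZero k] [IsAlgClosed k] [CharZero M] in
@[simp] theorem Lσ_apply (σ : (Fin N → M) →ₗ[M] Derivation k M M) (P : Fin N → M) (w : Fin N → M) (i : Fin N) :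
    Lσ σ P w i = σ w (P i) := rfl

omit [CharZero k] [IsAlgClosed k] [CharZero M] in
theorem dimU (σ : (Fin N → M) →ₗ[M] Derivation k M M) (R P : Fin N → M) (hP : P ≠ 0)
    (Z : Submodule M (Fin N → M)) (hPZ : P ∈ Z) (hZD : ∀ D : Derivation k M M, (fun i => D (P i)) ∈ Z) :
    N ≤ Module.finrank M (LinearMap.ker (Tl a R R R) ⊓ Submodule.comap (Lσ σ P) (Submodule.span M {P}) :
      Submodule M (Fin N → M)) + Module.finrank M Z := by
  have h1 := dim_comap (Lσ σ P) (LinearMap.ker (Tl a R R R)) (Submodule.span M {P}) Z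
    (by rw [Submodule.span_singleton_le_iff_mem]; exact hPZ) (fun w _ => hZD (σ w))
  have h2 : Module.finrank M (Submodule.span M {P}) = 1 := finrank_span_singleton hP
  have h3 := finrank_ker_dual (Tl a R R R)
  rw [Module.finrank_fin_fun] at h3
  omega

/-- Lemma N. -/
theorem lemN (hN2 : SN2.{u}) (hN : 6 ≤ N) (ha : IsSym a) (hsm : SmoothX a) {R P : Fin N → M}
    (hR : Gen a R) (σ : (Fin N → M) →ₗ[M] Derivation k M M)
    (hσ : ∀ w, T a R R R w = 0 → ∀ i, σ w (R i) = w i) (hP : P ≠ 0)
    (h4 : T a P P P P = 0) (h3 : T a P P P R = 0) (h2 : T a P P R R = 0)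
    (Z : Submodule M (Fin N → M)) (hZ : Module.finrank M Z ≤ 2) (hPZ : P ∈ Z)
    (hZD : ∀ D : Derivation k M M, (fun i => D (P i)) ∈ Z) : False := by
  classical
  -- reduction to Lemma N2
  have key : T a R R R P ≠ 0 := by
    intro hRRRP
    refine hN2 k M N a hN ha hsm R P σ hσ hP hR.zero hRRRP ?_ ?_ h4 Z (by omega) hPZ hZD
    · rw [← h2, T_rot ha, T_rot ha]
    · rw [← h3, T_rot ha, T_rot ha, T_rot ha]
  set U : Submodule M (Fin N → M) :=
    LinearMap.ker (Tl a R R R) ⊓ Submodule.comap (Lσ σ P) (Submodule.span M {P}) with hU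
  have hdU := dimU (a := a) σ R P hP Z hPZ hZD
  rw [← hU] at hdU
  have hUmem : ∀ w ∈ U, T a R R R w = 0 ∧ ∃ lam : M, ∀ i, σ w (P i) = lam * P i := by
    intro w hw
    obtain ⟨hw1, hw2⟩ := Submodule.mem_inf.1 hw
    refine ⟨hw1, ?_⟩
    obtain ⟨lam, hlam⟩ := Submodule.mem_span_singleton.1 (Submodule.mem_comap.1 hw2)
    refine ⟨lam, fun i => ?_⟩
    have := congrFun hlam i
    exact this.symm
  have hα : ∀ w ∈ U, T a P P P w = 0 := by
    intro w hw
    obtain ⟨hw1, lam, hlam⟩ := hUmem w hw
    have h5 := congrArg (σ w) h3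
    rw [T_D, map_zero] at h5
    have e1 : (fun i => σ w (P i)) = lam • P := funext hlam
    have e2 : (fun i => σ w (R i)) = w := funext (hσ w hw1)
    rw [e1, e2, T_smul1, T_smul2, T_smul3, h3] at h5
    linear_combination h5
  have hβ : ∀ w ∈ U, T a P P R w = 0 := by
    intro w hw
    obtain ⟨hw1, lam, hlam⟩ := hUmem w hw
    have h5 := congrArg (σ w) h2
    rw [T_D, map_zero] at h5
    have e1 : (fun i => σ w (P i)) = lam • P := funext hlam
    have e2 : (fun i => σ w (R i)) = w := funext (hσ w hw1)
    rw [e1, e2, T_smul1, T_smul2, h2, T_s23 ha P P w R] at h5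
    have h6 : (2 : M) * T a P P R w = 0 := by linear_combination h5
    exact (mul_eq_zero.1 h6).resolve_left two_ne_zero
  obtain ⟨g, hg, j, hj⟩ := rel_of_kill (r := 2) U (by rw [Module.finrank_fin_fun]; omega)
    ![Tl a P P P, Tl a P P R, Tl a R R R] (by
      intro i x hx
      fin_cases i
      · exact hα x hx
      · exact hβ x hx
      · exact (hUmem x hx).1)
  have hg' : ∀ y, g 0 * T a P P P y + g 1 * T a P P R y + g 2 * T a R R R y = 0 := by
    intro y
    have hg3 : ∑ i : Fin 3, g i • (![Tl a P P P, Tl a P P R, Tl a R R R] : Fin 3 → Module.Dual M (Fin N → M)) i = 0 := hg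
    rw [Fin.sum_univ_three] at hg3
    have := LinearMap.congr_fun hg3 y
    simp only [LinearMap.add_apply, LinearMap.smul_apply, smul_eq_mul,
      LinearMap.zero_apply] at this
    exact this
  have hg2 : g 2 = 0 := by
    have h5 := hg' P
    rw [h4, T_s23 ha P P R P, h3] at h5
    have h6 : g 2 * T a R R R P = 0 := by linear_combination h5
    exact (mul_eq_zero.1 h6).resolve_right key
  obtain ⟨y0, hy0⟩ : ∃ y, T a P P P y ≠ 0 := by
    by_contra hcon
    push Not at hcon
    exact hP (hsm M P hcon)
  have hg1 : g 1 ≠ 0 := by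
    intro h1
    have h5 := hg' y0
    rw [h1, hg2] at h5
    have h6 : g 0 * T a P P P y0 = 0 := by linear_combination h5
    have h7 : g 0 = 0 := (mul_eq_zero.1 h6).resolve_right hy0
    fin_cases j
    · exact hj h7
    · exact hj h1
    · exact hj hg2
  obtain ⟨a', ha'⟩ : ∃ a' : M, ∀ y, T a P P R y = a' * T a P P P y := by
    refine ⟨-(g 0 / g 1), fun y => ?_⟩
    have h5 := hg' y
    rw [hg2] at h5
    field_simp
    linear_combination h5
  -- the space `Λ`
  let Λ : Submodule M (Fin N → M) :=
    { carrier := {w | ∃ μ : M, ∀ y, T a P P w y = μ * T a P P P y}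
      add_mem' := by
        rintro w w' ⟨μ, hμ⟩ ⟨μ', hμ'⟩
        exact ⟨μ + μ', fun y => by rw [T_add3, hμ, hμ']; ring⟩
      zero_mem' := ⟨0, fun y => by rw [T_zero3]; ring⟩
      smul_mem' := by
        rintro c w ⟨μ, hμ⟩
        exact ⟨c * μ, fun y => by rw [T_smul3, hμ]; ring⟩ }
  have hUΛ : U ≤ Λ := by
    intro w hw
    obtain ⟨hw1, lam, hlam⟩ := hUmem w hw
    have e1 : (fun i => σ w (P i)) = lam • P := funext hlam
    have e2 : (fun i => σ w (R i)) = w := funext (hσ w hw1)
    have hbas : ∀ i : Fin N, T a P P w (Pi.single i 1) =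
        (σ w a' + lam * a') * T a P P P (Pi.single i 1) := by
      intro i
      have e3 : (fun l => σ w ((Pi.single i 1 : Fin N → M) l)) = 0 := by
        funext l
        by_cases hl : l = i
        · subst hl
          simp
        · simp [Pi.single_eq_of_ne hl]
      have h5 := congrArg (σ w) (ha' (Pi.single i 1))
      rw [Derivation.leibniz, T_D, T_D, e1, e2, e3] at h5
      simp only [T_smul1, T_smul2, T_smul3, T_zero4, smul_eq_mul] at h5
      have h6 := ha' (Pi.single i 1)
      linear_combination h5 - 2 * lam * h6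
    refine ⟨σ w a' + lam * a', fun y => ?_⟩
    rw [T_basis4, T_basis4 a P P P y, Finset.mul_sum]
    refine Finset.sum_congr rfl fun i _ => ?_
    rw [hbas i]
    ring
  have hΛT : Λ ≤ LinearMap.ker (Tl a P P P) := by
    rintro w ⟨μ, hμ⟩
    rw [LinearMap.mem_ker, Tl_apply]
    have h5 := hμ P
    rw [h4, mul_zero] at h5
    rw [T_s23 ha]
    exact h5
  have hPΛ : P ∈ Λ := ⟨1, fun y => by rw [one_mul]⟩
  have hPU : P ∉ U := fun h => key (hUmem P h).1
  have hlt : U < Λ := lt_of_le_of_ne hUΛ (fun h => hPU (h ▸ hPΛ))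
  have h5 := Submodule.finrank_lt_finrank_of_lt hlt
  have h6 := finrank_ker_dual' (Tl a P P P) ⟨y0, hy0⟩
  rw [Module.finrank_fin_fun] at h6
  have hΛeq : Λ = LinearMap.ker (Tl a P P P) :=
    Submodule.eq_of_le_of_finrank_le hΛT (by omega)
  -- all derivations preserve the direction of the gradient
  have hgrad : ∀ D : Derivation k M M, ∃ μ : M, ∀ i : Fin N,
      D (T a P P P (Pi.single i 1)) = μ * T a P P P (Pi.single i 1) := by
    intro D
    have h7 : (fun i => D (P i)) ∈ Λ := by
      rw [hΛeq, LinearMap.mem_ker, Tl_apply]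
      have h8 := congrArg D h4
      rw [T_D, map_zero, ← T_rot ha P P P, T_s12 ha P (fun i => D (P i)) P P,
        T_s23 ha P P (fun i => D (P i)) P] at h8
      have h9 : (4 : M) * T a P P P (fun i => D (P i)) = 0 := by linear_combination h8
      exact (mul_eq_zero.1 h9).resolve_left (by norm_num)
    obtain ⟨μ, hμ⟩ := h7
    refine ⟨3 * μ, fun i => ?_⟩
    have e3 : (fun l => D ((Pi.single i 1 : Fin N → M) l)) = 0 := by
      funext l
      by_cases hl : l = i
      · subst hl
        simp
      · simp [Pi.single_eq_of_ne hl]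
    rw [T_D, e3, T_zero4, T_s01 ha (fun i => D (P i)) P P, T_s12 ha P (fun i => D (P i)) P, hμ]
    ring
  obtain ⟨i0, hi0⟩ := exists_basis4 hy0
  have hconst : ∀ i, ∃ c : k, algebraMap k M c = T a P P P (Pi.single i 1) / T a P P P (Pi.single i0 1) := by
    intro i
    refine const_of_der _ fun D => ?_
    obtain ⟨μ, hμ⟩ := hgrad D
    rw [Derivation.leibniz_div, hμ i, hμ i0]
    simp only [smul_eq_mul]
    ring
  choose c hc using hconst
  have hlin : ∑ i, algebraMap k M (c i) * R i = 0 := by
    have h7 := h3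
    rw [T_basis4] at h7
    have h8 : ∑ i, algebraMap k M (c i) * R i =
        (∑ i, T a P P P (Pi.single i 1) * R i) / T a P P P (Pi.single i0 1) := by
      rw [Finset.sum_div]
      refine Finset.sum_congr rfl fun i _ => ?_
      rw [hc i]
      ring
    rw [h8, h7, zero_div]
  have hc0 := hR.lin c hlin
  have h7 := hc i0
  rw [hc0, div_self hi0] at h7
  simp at h7

end

end Pool.Agent.Helper4.QH
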